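import Pool.Agent.MP_b1aeef_nt.H23.Final

/-! Maximal subword complexity of block-additive (digital) sequences along a fixed polynomial of
degree at least two: a characterisation. -/

set_option autoImplicit false

open Polynomial

namespace Pool.Agent.Results.MP_b1aeef_nt.Digital

theorem result (q L : ℕ) (hq : 2 ≤ q) (A : Type*) [AddCommGroup A] [Finite A] (f F : ℕ → A)
    (hf0 : f 0 = 0) (hf : ∀ n : ℕ, f n = F (n % q ^ L) + f (n / q))
    (P : ℚ[X]) (hdeg : 2 ≤ P.natDegree) (a : ℕ → ℕ) (ha : ∀ n : ℕ, (a n : ℚ) = P.eval (n : ℚ)) :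
    (∀ (k : ℕ) (w : Fin k → A), ∃ m : ℕ, ∀ i : Fin k, f (a (m + i)) = w i) ↔
      ∀ B : AddSubgroup A, B ≠ ⊤ → ¬ ∃ T : ℕ, 0 < T ∧ ∀ n : ℕ, f (n + T) - f n ∈ B := by
  refine ⟨fun H => Pool.Agent.MP_b1aeef_nt.H23.converse f P a ha H, fun hN k w => ?_⟩
  refine Pool.Agent.MP_b1aeef_nt.H23.main q L hq f ⟨hf0, fun n n' hn => ?_⟩ hN P hdeg a ha k w
  rw [hf n, hf n', show n % q ^ L = n' % q ^ L from hn, add_sub_cancel_right, add_sub_cancel_right]

end Pool.Agent.Results.MP_b1aeef_nt.Digital
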