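import Pool.Agent.MP_b1aeef_nt.H78.Final

/-! Joint values of the digit sum modulo `m` along a finite family of polynomials. -/

set_option autoImplicit false

open Polynomial Filter

namespace Pool.Agent.Results.MP_b1aeef_nt.Joint

theorem result (d m : ℕ) (hm : 1 ≤ m) : ∃ α : ℝ, 0 < α ∧ ∀ q : ℕ, 2 ≤ q →
    ∀ (s : ℕ) (H : Fin s → ℚ[X]) (a : Fin s → ℕ → ℕ),
      (∀ (i : Fin s) (n : ℕ), (a i n : ℚ) = (H i).eval (n : ℚ)) →
      (∀ i : Fin s, 1 ≤ (H i).natDegree ∧ (H i).natDegree ≤ d) →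
      (∀ i j : Fin s, i ≠ j → ∀ u : ℕ, 1 ≤ (C ((q : ℚ) ^ u) * H i - H j).natDegree) →
      ∀ g : Fin s → ℕ,
        (∃ n₀ : ℕ, ∀ i : Fin s, a i n₀ ≡ g i [MOD Nat.gcd m (q - 1)]) ↔
        ∀ᶠ N : ℕ in atTop, (N : ℝ) ^ α ≤
          (((Finset.range N).filter fun n : ℕ =>
            ∀ i : Fin s, (Nat.digits q (a i n)).sum ≡ g i [MOD m]).card : ℝ) := by
  obtain ⟨α, h0, h⟩ := Pool.Agent.MP_b1aeef_nt.H78.joint d m hm
  refine ⟨α, h0, fun q hq s H a ha hd hu g =>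
    ⟨fun ⟨n₀, hn⟩ => h q hq s H a ha hd hu g n₀ hn, fun h1 => ?_⟩⟩
  obtain ⟨N, h2, h3⟩ := (h1.and (eventually_gt_atTop 0)).exists
  obtain ⟨n, hn⟩ := Finset.card_pos.1
    (Nat.cast_pos.1 ((Real.rpow_pos_of_pos (Nat.cast_pos.2 h3) α).trans_le h2))
  exact ⟨n, fun i =>
    ((Pool.Agent.MP_b1aeef_nt.H78.sd_modEq hq _).of_dvd (Nat.gcd_dvd_right _ _)).symm.trans
      (((Finset.mem_filter.1 hn).2 i).of_dvd (Nat.gcd_dvd_left _ _))⟩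

end Pool.Agent.Results.MP_b1aeef_nt.Joint
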