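import Pool.Agent.MP_b1aeef_nt.H64.Final

/-! Digit sums along an integer polynomial of any degree at least two: all blocks of residues have
the expected frequency, with a power saving, in every base. For `q = m = 2` the Thue-Morse
sequence is normal along `P`, so every binary word occurs. -/

set_option autoImplicit false

open Finset

namespace Pool.Agent.Results.MP_b1aeef_nt.Normal

theorem result (q m k : ℕ) (hq : 2 ≤ q) (hm : 1 ≤ m) (P : Polynomial ℤ)
    (hd : 2 ≤ P.natDegree) (hP : ∀ n : ℕ, 0 ≤ P.eval (n : ℤ)) :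
    ∃ c C : ℝ, 0 < c ∧ ∀ (w : Fin k → ℕ) (N : ℕ),
      |((((range N).filter fun n => ∀ l : Fin k,
            (Nat.digits q (P.eval ((n + l : ℕ) : ℤ)).toNat).sum ≡ w l [MOD m]).card : ℕ) : ℝ) -
          ((Nat.gcd m (q - 1) : ℝ) / m) ^ k *
            ((((range N).filter fun n => ∀ l : Fin k,
              (P.eval ((n + l : ℕ) : ℤ)).toNat ≡ w l [MOD Nat.gcd m (q - 1)]).card : ℕ) : ℝ)| ≤
        C * (N : ℝ) ^ (1 - c) :=
  Pool.Agent.MP_b1aeef_nt.H64.main_ok q m k hq hm P hd hP

end Pool.Agent.Results.MP_b1aeef_nt.Normal
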